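import Pool.Agent.H84.S2.Fin2
import Pool.Agent.H26.SF.MXZ
import Pool.Agent.H54.FOS.GNM

/-!
# Row MZ2 of the board s2l_modules: the theorem for the plane image in terms of the coordinates of
the curve, for nodal curves
-/

set_option autoImplicit false

namespace Pool.Agent.H72.S2

open MvPolynomial SC
open Pool.Agent.H27.LV (ge deg poleOrder canDeg DegreeBound)
open Pool.Agent.H84.SM (cr dt dp)
open Pool.Agent.H84.SL (pd)
open Pool.Agent.H3.SF (Itg Bb BB Hm eu grd hes Sfc Crd Crf Prm nv)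
open Pool.Agent.H84.SF
open Pool.Agent.H3.S2
open Pool.Agent.H84.S2
open Pool.Agent.H17.SD (Prj Smo HRel)

theorem pf_MZ2 (hMX2 : Pool.Agent.H3.S2.T_MX2) (hPOZ : T_POZ) (hPHI : Pool.Agent.H17.SD.T_PHI) :
    T_MZ2 := by
  classical
  intro δ j0 c0
  obtain ⟨m0, hm0⟩ := hMX2 δ j0 c0
  refine ⟨m0, ?_⟩
  intro k F σ _ _ _ _ _ _ X u θ dd J c hS m GP sg S hm hC
  have hF : CharZero F := charZero_of_injective_algebraMap (algebraMap k F).injective
  -- the relations are homogeneous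
  have hE : ∀ i, Hm k (eu u dd) 1 (X i) := fun i => by
    unfold Hm
    rw [hS.prj.Xeu i]
    push_cast
    ring
  have hH : HRel k X := by
    intro f hf d
    have h0 : ∑ i ∈ Finset.range (f.totalDegree + 1), aeval X (homogeneousComponent i f) = 0 := by
      rw [← map_sum, sum_homogeneousComponent, hf]
    by_cases hd : d ∈ Finset.range (f.totalDegree + 1)
    · exact Pool.Agent.H62.HIL.hm_sum_eq_zero (κ := k) (E := eu u dd)
        (Finset.range (f.totalDegree + 1)) (fun i => (i : ℤ))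
        (fun a _ b _ hab => by simpa using hab) (fun i => aeval X (homogeneousComponent i f))
        (fun e _ => Pool.Agent.H62.HIL.hm_aeval hE (homogeneousComponent_isHomogeneous e f)) h0 d hd
    · rw [homogeneousComponent_eq_zero, map_zero]
      simp only [Finset.mem_range] at hd
      omega
  have hspan : ∀ a : F, a ∈ Submodule.span k (Set.range X) → a ∈ Algebra.adjoin k (Set.range X) := by
    intro a ha
    exact Algebra.span_le_adjoin k (Set.range X) ha
  have hcor : Cor X u dd J := by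
    refine ⟨fun l => ⟨∑ s, C (c l s) * MvPolynomial.X s, ?_, ?_⟩, hS.prj.Xint, hS.prj.Xeu, ?_⟩
    · refine IsHomogeneous.sum _ _ _ fun s _ => ?_
      have := (isHomogeneous_C σ (c l s)).mul (isHomogeneous_X k s)
      rwa [zero_add] at this
    · rw [map_sum, hS.lin l]
      refine Finset.sum_congr rfl fun s _ => ?_
      rw [map_mul, aeval_C, aeval_X, Algebra.smul_def]
    · intro a ha
      have h1 := hS.prj.JI a ha
      refine (Algebra.adjoin_le ?_ : Pool.Agent.H17.SD.PB k u θ ≤ _) h1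
      intro b hb
      rcases hb with rfl | ⟨l, rfl⟩
      · exact hspan _ hS.prj.tlin
      · exact hspan _ (hS.prj.ulin l)
  have hndg : NdG (k := k) X m (aeval X GP) := ⟨GP, hC.hom, rfl, hC.ndl⟩
  obtain ⟨B, hB⟩ := hm0 k F σ X u dd J hS.sfc hcor m (aeval X GP) sg S hm hC.crs hndg
  refine ⟨B, ?_⟩
  intro K _ _ _ htr D hD z Sp hz hJ hSz
  have hzI : ∀ f : MvPolynomial σ k, aeval X f = 0 → aeval z f = 0 := fun f hf =>
    hz.on f (by rw [RingHom.mem_ker]; exact hf)
  obtain ⟨l0, hl0, hpo⟩ := hPOZ k F σ K X u dd c hS.sfc.du hS.prj.Xint hS.prj.Xeu hS.lin z hzI hz.one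
  have hinv : (lin c z l0)⁻¹ ≠ 0 := inv_ne_zero hl0
  -- the scaled curve
  have hz1 : ∀ f : MvPolynomial σ k, aeval X f = 0 →
      aeval (fun s => (lin c z l0)⁻¹ * z s) f = 0 :=
    fun f hf => Pool.Agent.H26.SF.mxz_scale_zero X hH z hzI _ f hf
  have hx : ∀ l, ∑ s, c l s • ((lin c z l0)⁻¹ * z s) = (lin c z l0)⁻¹ * lin c z l := by
    intro l
    unfold lin
    rw [Finset.mul_sum]
    refine Finset.sum_congr rfl fun s _ => ?_
    rw [mul_smul_comm]
  have hxJ : aeval (fun l => (lin c z l0)⁻¹ * lin c z l) J = (lin c z l0)⁻¹ ^ j0 * aeval (lin c z) J :=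
    Pool.Agent.H26.SF.mxz_scale J j0 hS.sfc.Jh _ _
  have hJ1 : aeval (fun l => ∑ s, c l s • ((lin c z l0)⁻¹ * z s)) J ≠ 0 := by
    simp only [hx]
    rw [hxJ]
    exact mul_ne_zero (pow_ne_zero _ hinv) hJ
  obtain ⟨φ, hφ⟩ := hPHI k F σ K X u θ dd J hS.sfc.ind hS.prj
    (fun s => (lin c z l0)⁻¹ * z s) hz1 c hS.lin hJ1
  have hg : aeval (fun s => (lin c z l0)⁻¹ * z s) GP = (lin c z l0)⁻¹ ^ m * aeval z GP :=
    Pool.Agent.H26.SF.mxz_scale GP m hC.hom _ _
  have hxS : aeval (fun l => (lin c z l0)⁻¹ * lin c z l) S =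
      (lin c z l0)⁻¹ ^ sg * aeval (lin c z) S := Pool.Agent.H26.SF.mxz_scale S sg hC.crs.Sh _ _
  have hxS0 : aeval (fun l => (lin c z l0)⁻¹ * lin c z l) S ≠ 0 := by
    rw [hxS]
    exact mul_ne_zero (pow_ne_zero _ hinv) hSz
  have hcrf : Crt u J m (aeval X GP) sg S φ (fun l => (lin c z l0)⁻¹ * lin c z l)
      ((lin c z l0)⁻¹ ^ m * aeval z GP) Sp := by
    refine ⟨?_, ⟨l0, inv_mul_cancel₀ hl0⟩, ?_, hxS0, ?_, mul_ne_zero (pow_ne_zero _ hinv) hz.ne,
      ?_⟩
    · intro i b hb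
      have hb2 : b = ∑ s, c i s • (⟨X s, hS.prj.Xint s⟩ : Bb k u) := by
        apply Subtype.ext
        rw [hb, hS.lin i]
        simp
      rw [hb2, map_sum, ← hx i]
      refine Finset.sum_congr rfl fun s _ => ?_
      rw [map_smul, hφ s ⟨X s, hS.prj.Xint s⟩ rfl]
    · rw [hxJ]
      exact mul_ne_zero (pow_ne_zero _ hinv) hJ
    · intro b hb
      have hb2 : b = aeval (fun s => (⟨X s, hS.prj.Xint s⟩ : Bb k u)) GP := by
        apply Subtype.ext
        rw [hb]
        have := MvPolynomial.comp_aeval_apply (R := k) (fun s => (⟨X s, hS.prj.Xint s⟩ : Bb k u))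
          (Bb k u).val GP
        exact this.symm
      rw [hb2, ← hg, MvPolynomial.comp_aeval_apply]
      congr 2
      funext s
      exact hφ s ⟨X s, hS.prj.Xint s⟩ rfl
    · intro v hv
      have h1 := hz.off v hv
      have h2 := hpo v
      have h4 : nv v (fun l => (lin c z l0)⁻¹ * lin c z l) m
          ((lin c z l0)⁻¹ ^ m * aeval z GP) = 0 := by
        unfold nv
        rw [v.ord_mul _ _ (pow_ne_zero _ hinv) hz.ne, Pool.Agent.H26.SF.mxz_ord_pow v _ hinv, Pool.Agent.H26.SF.mxz_ord_inv v _ hl0,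
          h1]
        have h3 : (fun l => (lin c z l0)⁻¹ * lin c z l) = fun l => lin c z l / lin c z l0 := by
          funext l
          rw [div_eq_mul_inv, mul_comm]
        rw [h3, h2]
        ring
      rw [h4]
      rcases Pool.Agent.H54.FOS.ge_form v (fun l => (lin c z l0)⁻¹ * lin c z l) S sg
        hC.crs.Sh with h5 | h5
      · exact absurd h5 hxS0
      · unfold nv
        linarith
  obtain ⟨e, Φ, he, hΦ0, hΦh, hΦx⟩ := hB K htr D hD φ _ _ Sp hcrf
  refine ⟨e, Φ, he, hΦ0, hΦh, ?_⟩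
  rw [Pool.Agent.H26.SF.mxz_scale Φ e hΦh] at hΦx
  exact (mul_eq_zero.1 hΦx).resolve_left (pow_ne_zero _ hinv)

end Pool.Agent.H72.S2
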