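import Pool.Agent.H84.S2.TgD
import Pool.Agent.H62.HIL.Dim2

/-!
# Row D_VDI of the board s2l_modules: the dimension of the space of forms
-/

set_option autoImplicit false

namespace Pool.Agent.H72.S2

open MvPolynomial SC
open Pool.Agent.H27.LV (ge deg poleOrder canDeg)
open Pool.Agent.H84.SM (cr dt dp)
open Pool.Agent.H92.SF (Q2)
open Pool.Agent.H3.SF (Itg Bb BB Hm eu grd hes Sfc Crd Cnn Crf Prm nv Vl VQ evc FE E)
open Pool.Agent.H84.SF
open Pool.Agent.H3.S2
open Pool.Agent.H84.S2

theorem vdi_hm_mul {k F : Type} [Field k] [Field F] [Algebra k F] (E : Derivation k F F)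
    (s t : ℤ) (a b : F) (ha : Hm k E s a) (hb : Hm k E t b) : Hm k E (s + t) (a * b) := by
  unfold Hm at *
  rw [Derivation.leibniz, ha, hb, smul_eq_mul, smul_eq_mul]
  push_cast
  ring

theorem pf_VDI (hHMF : T_HMF) : T_VDI := by
  intro k F σ _ _ _ _ _ _ _ X u dd δ j0 c0 J hS hC e
  haveI : CharZero F := charZero_of_injective_algebraMap (algebraMap k F).injective
  have hSY : SYd X u dd J j0 := ⟨hS.ind, hS.du, hS.comm, hC.ulin, hC.Xint, hC.Xeu, hS.Jh, hS.J0,
    hC.JI, fun a l ha => hS.Jd l a ha⟩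
  have hE : ∀ i, Hm k (eu u dd) 1 (X i) := fun i => by
    unfold Hm
    rw [hC.Xeu i]
    push_cast
    ring
  have huu : ∀ i, eu u dd (u i) = u i := by
    intro i
    unfold eu
    rw [Fin.sum_univ_three]
    simp only [Derivation.add_apply, Derivation.smul_apply, smul_eq_mul, hS.du]
    fin_cases i <;> simp
  have hEu : ∀ i, Hm k (eu u dd) 1 (u i) := fun i => by
    unfold Hm
    rw [huu i]
    push_cast
    ring
  have hle : Vf X e ≤ BB k u (eu u dd) e := by
    rintro _ ⟨f, hf, rfl⟩
    refine ⟨?_, ?_⟩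
    · have h1 : (aeval X : MvPolynomial σ k →ₐ[k] F) f ∈ Algebra.adjoin k (Set.range X) := by
        rw [Algebra.adjoin_range_eq_range_aeval]
        exact ⟨f, rfl⟩
      have h2 : Algebra.adjoin k (Set.range X) ≤ Bb k u := by
        rw [Algebra.adjoin_le_iff]
        rintro _ ⟨i, rfl⟩
        exact hC.Xint i
      exact h2 h1
    · exact Pool.Agent.H62.HIL.hm_aeval hE ((mem_homogeneousSubmodule e f).1 hf)
  haveI hfinB : Module.Finite k (BB k u (eu u dd) (e : ℤ)) := hS.fin e
  haveI hfinV : Module.Finite k (Vf (k := k) X e) := Submodule.finiteDimensional_of_le hle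
  refine ⟨hle, hfinV, ?_, ?_⟩
  · intro he
    have hJ : aeval u J ≠ 0 := by
      intro h
      exact hS.J0 ((injective_iff_map_eq_zero _).1 hS.ind J h)
    have hJh : Hm k (eu u dd) j0 (aeval u J) := Pool.Agent.H62.HIL.hm_aeval hEu hS.Jh
    have hmap : ∀ a ∈ BB k u (eu u dd) ((e - j0 : ℕ) : ℤ),
        LinearMap.mulLeft k (aeval u J) a ∈ Vf (k := k) X e := by
      rintro a ⟨ha1, ha2⟩
      have h1 := vdi_hm_mul (eu u dd) _ _ _ _ hJh ha2
      have h2 : (j0 : ℤ) + ((e - j0 : ℕ) : ℤ) = e := by omega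
      rw [h2] at h1
      obtain ⟨f, hf, hfa⟩ := hHMF k F σ X u dd J j0 hSY (aeval u J * a) e (hC.JI a ha1) h1
      exact ⟨f, (mem_homogeneousSubmodule e f).2 hf, hfa⟩
    have hinj : Function.Injective ((LinearMap.mulLeft k (aeval u J)).restrict hmap) := by
      intro a b hab
      have h3 := congrArg Subtype.val hab
      have h4 : aeval u J * (a : F) = aeval u J * (b : F) := h3
      exact Subtype.ext (mul_left_cancel₀ hJ h4)
    have h5 : Module.finrank k (BB k u (eu u dd) ((e - j0 : ℕ) : ℤ)) ≤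
        Module.finrank k (Vf (k := k) X e) := LinearMap.finrank_le_finrank_of_injective hinj
    have h6 := hS.lo (e - j0) (by omega)
    exact h6.trans (Nat.mul_le_mul_left 2 h5)
  · have h1 := hS.up e
    have h2 : Module.finrank k (Vf (k := k) X e) ≤
        Module.finrank k (BB k u (eu u dd) (e : ℤ)) := Submodule.finrank_mono hle
    exact (Nat.mul_le_mul_left 2 h2).trans h1

end Pool.Agent.H72.S2
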